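import Pool.Agent.helper48.AN.SpecZ

namespace AN

open scoped Classical
open Pool.Agent.helper53.AU

noncomputable section

variable {K : Type} [Field K] {g : ℕ} {γ : Fin g → ℕ} {a : ℕ → LS K}

theorem ZA2_pow {f : LS K} {n : ℕ} (h1 : f ∈ GE K (-(n : ℤ))) (i : ℕ) :
    f ^ i ∈ GE K (-((n * i : ℕ) : ℤ)) ∧ cf (f ^ i) (-((n * i : ℕ) : ℤ)) = cf f (-(n : ℤ)) ^ i := by
  induction i with
  | zero =>
    constructor
    · simpa using (one_mem_PS (R := K))
    · simp [cf_one]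
  | succ i ih =>
    have e : (-((n * (i + 1) : ℕ) : ℤ)) = -((n * i : ℕ) : ℤ) + -(n : ℤ) := by push_cast; ring
    rw [pow_succ, e]
    refine ⟨GE_mul ih.1 h1, ?_⟩
    rw [cf_mul_lead ih.1 h1, ih.2, pow_succ]

theorem ZA2_trans {f : LS K} {n : ℕ} (hn : 0 < n) (h1 : f ∈ GE K (-(n : ℤ)))
    (h2 : cf f (-(n : ℤ)) ≠ 0) (P : Polynomial K) (hP : P ≠ 0) : Polynomial.aeval f P ≠ 0 := by
  intro h0
  have h3 : cf (Polynomial.aeval f P) (-((n * P.natDegree : ℕ) : ℤ)) =
      P.leadingCoeff * cf f (-(n : ℤ)) ^ P.natDegree := by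
    rw [Polynomial.aeval_eq_sum_range, cf_sum, Finset.sum_eq_single P.natDegree]
    · rw [cf_smul, (ZA2_pow h1 P.natDegree).2]; rfl
    · intro i hi hne
      rw [cf_smul, (ZA2_pow h1 i).1 _ _, mul_zero]
      have hi' : i < P.natDegree := by
        have := Finset.mem_range.mp hi
        omega
      have : n * i < n * P.natDegree := Nat.mul_lt_mul_of_pos_left hi' hn
      omega
    · intro h
      exact absurd (Finset.mem_range.mpr (Nat.lt_succ_self _)) h
  rw [h0, cf_zero] at h3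
  exact (mul_ne_zero (Polynomial.leadingCoeff_ne_zero.mpr hP) (pow_ne_zero _ h2)) h3.symm

/-- true pole orders -/
def ZA2_PO (γ : Fin g → ℕ) (a : ℕ → LS K) (r : ℕ) : Prop :=
  ∃ α ∈ AA γ a, α ∈ GE K (-(r : ℤ)) ∧ cf α (-(r : ℤ)) ≠ 0

theorem ZA2_large (hK : IsK γ a) (hB1 : ∀ r, ¬ Gp γ r → a r ∈ AA γ a) (r : ℕ)
    (hr : ∑ j, γ j < r) : ZA2_PO γ a r := by
  have hg : ∀ r', r ≤ r' → ¬ Gp γ r' := by
    rintro r' h ⟨j, hj⟩
    have h1 : γ j ≤ ∑ j, γ j :=
      Finset.single_le_sum (f := γ) (fun _ _ => Nat.zero_le _) (Finset.mem_univ j)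
    omega
  refine ⟨a r, hB1 r (hg r le_rfl), ?_, ?_⟩
  · intro m hm
    obtain ⟨r', rfl⟩ : ∃ r' : ℕ, m = -(r' : ℤ) := ⟨m.natAbs, by omega⟩
    rw [hK.coef _ _ (hg r le_rfl) (hg r' (by omega)), if_neg (by omega)]
  · rw [hK.coef _ _ (hg r le_rfl) (hg r le_rfl), if_pos rfl]
    exact one_ne_zero

theorem ZA2_class (hK : IsK γ a) (hB1 : ∀ r, ¬ Gp γ r → a r ∈ AA γ a) (n : ℕ) (hn : 0 < n)
    (i : ℕ) (hi : i < n) : ∃ r, ZA2_PO γ a r ∧ r % n = i := by
  refine ⟨i + n * (∑ j, γ j + 1), ZA2_large hK hB1 _ ?_, ?_⟩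
  · have h2 : (∑ j, γ j + 1) ≤ n * (∑ j, γ j + 1) := Nat.le_mul_of_pos_left _ hn
    omega
  · rw [Nat.add_mul_mod_self_left, Nat.mod_eq_of_lt hi]

theorem ZA2 (hKB : KB_stmt) (hZA1 : ZA1_stmt) : ZA2_stmt := by
  intro K _ g γ a hK f n hn hfA hfG hfc
  obtain ⟨hB1, hB2, hB3, hB4, -, -, -, -⟩ := hKB K g γ a hK
  have htr : Transcendental K f := by
    rw [transcendental_iff]
    intro P hP
    by_contra hP0
    refine ZA2_trans hn hfG hfc P hP0 ?_
    have := congrArg (EF γ a).val hP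
    rw [← Polynomial.aeval_algHom_apply, map_zero] at this
    exact this
  have hmem : ∀ x ∈ AA γ a, x ∈ EF γ a := fun x hx => IntermediateField.subset_adjoin K _ hx
  -- smallest pole orders in the classes
  have hμ : ∀ i : Fin n, ∃ r, (ZA2_PO γ a r ∧ r % n = (i : ℕ)) ∧
      ∀ r', ZA2_PO γ a r' → r' % n = (i : ℕ) → r ≤ r' := by
    intro i
    have hex := ZA2_class hK hB1 n hn i i.2
    exact ⟨Nat.find hex, Nat.find_spec hex, fun r' h1 h2 => Nat.find_min' hex ⟨h1, h2⟩⟩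
  choose μ hμ1 hμ2 using hμ
  have hu0 : ∀ i : Fin n, ∃ v ∈ AA γ a, v ∈ GE K (-(μ i : ℤ)) ∧ cf v (-(μ i : ℤ)) ≠ 0 :=
    fun i => (hμ1 i).1
  choose v hvA hvG hvc using hu0
  let u : Fin n → EF γ a := fun i => ⟨v i, hmem _ (hvA i)⟩
  let F0 := IntermediateField.adjoin K ({f} : Set (EF γ a))
  let V : Submodule F0 (EF γ a) := Submodule.span F0 (Set.range u)
  have hfF0 : f ∈ F0 := IntermediateField.mem_adjoin_simple_self K f
  have hu : ∀ i, u i ∈ V := fun i => Submodule.subset_span ⟨i, rfl⟩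
  have hVf : ∀ (j : ℕ) (x : EF γ a), x ∈ V → f ^ j * x ∈ V := by
    intro j x hx
    have h := V.smul_mem ((⟨f, hfF0⟩ : F0) ^ j) hx
    have e : ((⟨f, hfF0⟩ : F0) ^ j) • x = f ^ j * x := by
      rw [Algebra.smul_def]; rfl
    rwa [e] at h
  have hVK : ∀ (c : K) (x : EF γ a), x ∈ V → c • x ∈ V := by
    intro c x hx
    exact V.smul_of_tower_mem c hx
  have hfj : ∀ j : ℕ, (f : LS K) ^ j ∈ AA γ a := by
    intro j
    induction j with
    | zero =>
      have := hB2 1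
      rw [map_one] at this
      simpa using this
    | succ j ih => rw [pow_succ]; exact hB4 _ ih _ hfA
  -- reduction step
  have hred : ∀ (r : ℕ) (α : LS K) (hα : α ∈ AA γ a), α ∈ GE K (-(r : ℤ)) →
      ∃ w ∈ V, ∃ α' , ∃ hα' : α' ∈ AA γ a, α' ∈ GE K (-(r : ℤ) + 1) ∧
        (⟨α, hmem _ hα⟩ : EF γ a) = w + ⟨α', hmem _ hα'⟩ := by
    intro r α hα hαG
    by_cases hd : cf α (-(r : ℤ)) = 0
    · refine ⟨0, V.zero_mem, α, hα, ?_, by rw [zero_add]⟩
      intro m hm
      rcases eq_or_ne m (-(r : ℤ)) with rfl | h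
      · exact hd
      · exact hαG m (by omega)
    · have hr : ZA2_PO γ a r := ⟨α, hα, hαG, hd⟩
      let i : Fin n := ⟨r % n, Nat.mod_lt _ hn⟩
      have h1 : μ i ≤ r := hμ2 i r hr rfl
      have h2 : μ i % n = r % n := (hμ1 i).2
      obtain ⟨j, hj⟩ : ∃ j, r = n * j + μ i := by
        have h3 : n ∣ r - μ i := (Nat.modEq_iff_dvd' h1).mp h2
        obtain ⟨j, hj⟩ := h3
        exact ⟨j, by omega⟩
      have hβA : (f : LS K) ^ j * v i ∈ AA γ a := hB4 _ (hfj j) _ (hvA i)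
      have e : -((n * j : ℕ) : ℤ) + -((μ i : ℕ) : ℤ) = -(r : ℤ) := by
        rw [hj]; push_cast; ring
      have hβG : (f : LS K) ^ j * v i ∈ GE K (-(r : ℤ)) := by
        have := GE_mul (ZA2_pow hfG j).1 (hvG i)
        rwa [e] at this
      have hβc : cf ((f : LS K) ^ j * v i) (-(r : ℤ)) ≠ 0 := by
        have := cf_mul_lead (ZA2_pow hfG j).1 (hvG i)
        rw [e] at this
        rw [this, (ZA2_pow hfG j).2]
        exact mul_ne_zero (pow_ne_zero _ hfc) (hvc i)
      let c : K := cf α (-(r : ℤ)) / cf ((f : LS K) ^ j * v i) (-(r : ℤ))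
      refine ⟨c • (f ^ j * u i), hVK c _ (hVf j _ (hu i)), α - c • ((f : LS K) ^ j * v i),
        (AA γ a).sub_mem hα ((AA γ a).smul_mem c hβA), ?_, ?_⟩
      · intro m hm
        rw [cf_sub, cf_smul]
        rcases eq_or_ne m (-(r : ℤ)) with rfl | h
        · simp only [c]
          rw [div_mul_cancel₀ _ hβc, sub_self]
        · rw [hαG m (by omega), hβG m (by omega)]
          ring
      · apply Subtype.ext
        show α = c • ((f : LS K) ^ j * v i) + (α - c • ((f : LS K) ^ j * v i))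
        ring
  have hVA : ∀ (r : ℕ) (α : LS K) (hα : α ∈ AA γ a), α ∈ GE K (-(r : ℤ)) →
      (⟨α, hmem _ hα⟩ : EF γ a) ∈ V := by
    intro r
    induction r with
    | zero =>
      intro α hα hαG
      obtain ⟨w, hw, α', hα', h1, h2⟩ := hred 0 α hα hαG
      have h3 : α' ∈ PS K := GE_mono (by norm_num) h1
      obtain ⟨c, hc⟩ := hB3 α' hα' h3
      have h4 : α' = 0 := by
        have h5 := h1 0 (by norm_num)
        rw [hc, cf_C, if_pos rfl] at h5
        rw [hc, h5, map_zero]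
      rw [h2]
      have : (⟨α', hmem _ hα'⟩ : EF γ a) = 0 := Subtype.ext h4
      rw [this, add_zero]
      exact hw
    | succ r ih =>
      intro α hα hαG
      obtain ⟨w, hw, α', hα', h1, h2⟩ := hred (r + 1) α hα hαG
      rw [h2]
      refine V.add_mem hw (ih α' hα' ?_)
      have e : -((r + 1 : ℕ) : ℤ) + 1 = -(r : ℤ) := by push_cast; ring
      rwa [e] at h1
  have hVA' : ∀ (α : LS K) (hα : α ∈ AA γ a), (⟨α, hmem _ hα⟩ : EF γ a) ∈ V := by
    intro α hα
    obtain ⟨N, hN⟩ := exists_lb_nat α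
    exact hVA N α hα hN
  -- V is a subalgebra
  have hV1 : (1 : EF γ a) ∈ V := by
    have h := hB2 1
    rw [map_one] at h
    exact hVA' 1 h
  have hVmul : ∀ x ∈ V, ∀ y ∈ V, x * y ∈ V := by
    intro x hx y hy
    have h : x * y ∈ V * V := Submodule.mul_mem_mul hx hy
    have hVV : V * V ≤ V := by
      rw [Submodule.span_mul_span]
      refine Submodule.span_le.mpr ?_
      rintro z hz
      obtain ⟨z1, ⟨i, rfl⟩, z2, ⟨j, rfl⟩, rfl⟩ := Set.mem_mul.mp hz
      exact hVA' (v i * v j) (hB4 _ (hvA i) _ (hvA j))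
    exact hVV h
  let B : Subalgebra F0 (EF γ a) :=
    { carrier := V
      mul_mem' := fun {x y} hx hy => hVmul x hx y hy
      one_mem' := hV1
      add_mem' := fun {x y} hx hy => V.add_mem hx hy
      zero_mem' := V.zero_mem
      algebraMap_mem' := fun c => by
        have := V.smul_mem c hV1
        rwa [Algebra.smul_def, mul_one] at this }
  have hVfin : FiniteDimensional F0 V := FiniteDimensional.span_of_finite F0 (Set.finite_range u)
  have hBfin : Module.Finite F0 B := hVfin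
  have hinv : ∀ x ∈ V, x⁻¹ ∈ V := by
    intro x hx
    have halg : IsAlgebraic F0 x := by
      have h1 : IsIntegral F0 (⟨x, hx⟩ : B) := IsIntegral.of_finite F0 _
      have h2 : IsIntegral F0 x := h1.map B.val
      exact h2.isAlgebraic
    exact B.inv_mem_of_algebraic (x := ⟨x, hx⟩) halg
  have htop : V = ⊤ := by
    rw [eq_top_iff]
    rintro x -
    obtain ⟨α, hα, β, hβ, hβ0, hx⟩ := (hZA1 K g γ a hK x).mp x.2
    have h1 := hVA' α hα
    have h2 := hinv _ (hVA' β hβ)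
    have e : x = (⟨α, hmem _ hα⟩ : EF γ a) * (⟨β, hmem _ hβ⟩ : EF γ a)⁻¹ := by
      rw [eq_mul_inv_iff_mul_eq₀]
      · exact Subtype.ext hx
      · intro h
        exact hβ0 (congrArg Subtype.val h)
    rw [e]
    exact hVmul _ h1 _ h2
  have hfin : FiniteDimensional F0 (EF γ a) := by
    refine Module.Finite.of_fg_top ?_
    rw [← htop]
    exact Submodule.fg_span (Set.finite_range u)
  refine ⟨htr, hfin, ?_⟩
  show Module.finrank F0 (EF γ a) ≤ n
  rw [← finrank_top, ← htop]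
  have := finrank_range_le_card (R := F0) u
  rwa [Fintype.card_fin] at this

end

end AN
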